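import Pool.Agent.Run7.h635.OD.Fin
import Pool.Agent.Run7.h709.OD.Main
import Pool.Agent.Run7.h594.CY.Fin

/-!
# Ordinary primes of the Hecke eigenforms of level one

Every normalized Hecke eigenform of level one, of any weight, is ordinary at some place above `p`
for a set of primes `p` of positive lower density.
-/

set_option autoImplicit false

open MatrixGroups UpperHalfPlane

namespace Run7.h635.Old.LevelOneEigenforms

/-- The Hecke operator `T_p` of weight `k` and level one, on functions on the upper half-plane: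
`z ↦ p^(k-1) f(pz) + p^(-1) ∑_{b mod p} f((z+b)/p)`. -/
noncomputable def heckeT (k : ℤ) (p : ℕ) (f : ℍ → ℂ) (z : ℍ) : ℂ :=
  (p : ℂ) ^ (k - 1) * f (ofComplex ((p : ℂ) * z)) +
    (∑ b ∈ Finset.range p, f (ofComplex (((z : ℂ) + b) / p))) / p

/-- `f = ∑ a_n e(nz)`, a cusp form of weight `k` for `SL(2, ℤ)`, is a normalized Hecke eigenform:
`a_1 = 1` and `f` is an eigenfunction of every `T_p`. -/
structure IsEigenform (k : ℤ) (f : CuspForm 𝒮ℒ k) : Prop where
  coeff_one : (qExpansion 1 f).coeff 1 = 1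
  hecke : ∀ p : ℕ, p.Prime → ∃ c : ℂ, ∀ z : ℍ, heckeT k p f z = c * f z

/-- `f = ∑ a_n e(nz)` is ordinary at some place above `p`: the Hecke polynomial
`T² - a_p T + p^(k-1)` (the characteristic polynomial of the Frobenius at `p`) is
`(T - α) (T - β)` with algebraic integers `α`, `β`, and for some maximal ideal `m` above `p` of the
ring of all algebraic integers `α ∉ m` (so that `α` and `β` have the valuations `0` and `k - 1` at
`m`, where `p` has valuation `1`). -/
def OrdinaryAbove {k : ℤ} (f : CuspForm 𝒮ℒ k) (p : ℕ) : Prop :=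
  ∃ (α β : integralClosure ℤ ℂ) (m : Ideal (integralClosure ℤ ℂ)),
    (α : ℂ) + β = (qExpansion 1 f).coeff p ∧ (α : ℂ) * β = (p : ℂ) ^ (k - 1) ∧
    m.IsMaximal ∧ (p : integralClosure ℤ ℂ) ∈ m ∧ α ∉ m

lemma ordinary_of_unitAbove {k : ℤ} (hk : 1 ≤ k) (f : CuspForm 𝒮ℒ k) {p : ℕ} (hp : p.Prime)
    (hi : IsIntegral ℤ ((qExpansion 1 f).coeff p))
    (h : Run7.h635.OD.UnitAbove ((qExpansion 1 f).coeff p) p) : OrdinaryAbove f p := by
  have hp0 : (p : ℂ) ≠ 0 := by exact_mod_cast hp.ne_zero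
  set a : integralClosure ℤ ℂ := ⟨(qExpansion 1 f).coeff p, hi⟩ with ha
  -- a maximal ideal above `p` which does not contain `a`
  obtain ⟨m, hm, hpm, ham⟩ : ∃ m : Ideal (integralClosure ℤ ℂ), m.IsMaximal ∧
      (p : integralClosure ℤ ℂ) ∈ m ∧ a ∉ m := by
    have h1 : a ∉ (Ideal.span {(p : integralClosure ℤ ℂ)}).radical := by
      rintro ⟨n, hn⟩
      rw [Ideal.mem_span_singleton] at hn
      obtain ⟨⟨c, hc⟩, hcn⟩ := hn
      apply h
      refine ⟨n, ?_⟩
      have h2 : ((qExpansion 1 f).coeff p) ^ n = (p : ℂ) * c := congrArg Subtype.val hcn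
      rw [h2, mul_div_cancel_left₀ _ hp0]
      exact hc
    rw [Ideal.radical_eq_sInf, Submodule.mem_sInf] at h1
    push Not at h1
    obtain ⟨m, ⟨hm1, hm2⟩, hm3⟩ := h1
    have hpm : (p : integralClosure ℤ ℂ) ∈ m := hm1 (Ideal.mem_span_singleton_self _)
    refine ⟨m, ?_, hpm, hm3⟩
    have hcm : (Ideal.comap (algebraMap ℤ (integralClosure ℤ ℂ)) m).IsMaximal := by
      have hprime : (Ideal.comap (algebraMap ℤ (integralClosure ℤ ℂ)) m).IsPrime := inferInstance
      refine hprime.isMaximal ?_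
      intro hbot
      have h3 : (p : ℤ) ∈ Ideal.comap (algebraMap ℤ (integralClosure ℤ ℂ)) m := by
        rw [Ideal.mem_comap]
        simpa using hpm
      rw [hbot, Ideal.mem_bot] at h3
      exact hp.ne_zero (by exact_mod_cast h3)
    exact Ideal.isMaximal_of_isIntegral_of_isMaximal_comap m hcm
  -- the roots
  obtain ⟨x, hx⟩ := IsAlgClosed.exists_pow_nat_eq
    (((qExpansion 1 f).coeff p) ^ 2 - 4 * (p : ℂ) ^ (k - 1)) (n := 2) (by norm_num)
  have hpk : IsIntegral ℤ ((p : ℂ) ^ (k - 1)) := by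
    obtain ⟨l, hl⟩ := Int.eq_ofNat_of_zero_le (show 0 ≤ k - 1 by omega)
    rw [hl, zpow_natCast]
    have h4 : IsIntegral ℤ ((p : ℤ) : ℂ) := isIntegral_algebraMap
    exact (by simpa using h4.pow l)
  have hroot : ∀ y : ℂ, y ^ 2 - (qExpansion 1 f).coeff p * y + (p : ℂ) ^ (k - 1) = 0 →
      IsIntegral ℤ y := by
    intro y hy
    have h5 : IsIntegral (integralClosure ℤ ℂ) y := by
      refine ⟨Polynomial.X ^ 2 - Polynomial.C a * Polynomial.X +
        Polynomial.C (⟨(p : ℂ) ^ (k - 1), hpk⟩ : integralClosure ℤ ℂ), ?_, ?_⟩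
      · monicity!
      · simp only [Polynomial.eval₂_add, Polynomial.eval₂_sub, Polynomial.eval₂_mul,
          Polynomial.eval₂_pow, Polynomial.eval₂_X, Polynomial.eval₂_C]
        exact hy
    exact isIntegral_trans y h5
  set y₁ : ℂ := ((qExpansion 1 f).coeff p + x) / 2 with hy₁
  set y₂ : ℂ := ((qExpansion 1 f).coeff p - x) / 2 with hy₂
  have hsum : y₁ + y₂ = (qExpansion 1 f).coeff p := by rw [hy₁, hy₂]; ring
  have hprod : y₁ * y₂ = (p : ℂ) ^ (k - 1) := by
    rw [hy₁, hy₂]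
    linear_combination (-1 / 4 : ℂ) * hx
  have hi₁ : IsIntegral ℤ y₁ := hroot y₁ (by rw [← hsum, ← hprod]; ring)
  have hi₂ : IsIntegral ℤ y₂ := hroot y₂ (by rw [← hsum, ← hprod]; ring)
  by_cases h6 : (⟨y₁, hi₁⟩ : integralClosure ℤ ℂ) ∈ m
  · refine ⟨⟨y₂, hi₂⟩, ⟨y₁, hi₁⟩, m, ?_, ?_, hm, hpm, fun h7 => ham ?_⟩
    · show y₂ + y₁ = _
      rw [add_comm]; exact hsum
    · show y₂ * y₁ = _
      rw [mul_comm]; exact hprod
    · have e : a = ⟨y₁, hi₁⟩ + ⟨y₂, hi₂⟩ := Subtype.ext hsum.symm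
      rw [e]
      exact m.add_mem h6 h7
  · exact ⟨⟨y₁, hi₁⟩, ⟨y₂, hi₂⟩, m, hsum, hprod, hm, hpm, h6⟩

/-- **Every normalized Hecke eigenform of level one is ordinary at some place above `p`, for a set
of primes `p` of positive lower density.** -/
theorem result (k : ℤ) (f : CuspForm 𝒮ℒ k) (hf : IsEigenform k f) :
    0 < Filter.liminf (fun x : ℕ =>
      (Nat.card {p : ℕ // p ≤ x ∧ p.Prime ∧ OrdinaryAbove f p} : ℝ) /
        Nat.card {p : ℕ // p ≤ x ∧ p.Prime}) Filter.atTop := by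
  have hk : 12 ≤ k := Run7.h635.OD.weight_ge f hf.coeff_one
  obtain ⟨⟨c, hc, x0, h⟩, hint⟩ := Run7.h635.OD.level_one H809.OD.theta_holds
    Run7.h709.OD.main_holds k f hf.coeff_one hf.hecke
  refine H594.CY.liminf_pos (OrdinaryAbove f) ⟨c, hc, x0, fun x hx => (h x hx).trans ?_⟩
  classical
  refine Finset.sum_le_sum_of_subset_of_nonneg ?_ ?_
  · intro p hp
    rw [Finset.mem_filter] at hp ⊢
    exact ⟨hp.1, hp.2.1, ordinary_of_unitAbove (by omega) f hp.2.1 (hint p) hp.2.2⟩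
  · intro p hp _
    rw [Finset.mem_filter] at hp
    exact Real.log_nonneg (by exact_mod_cast hp.2.1.one_le)

end Run7.h635.Old.LevelOneEigenforms
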